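import Pool.Agent.Helper74.UB.Goals2

/-! # UB (MP_cd9ac2_co), packet ARCX -/

namespace Pool.Agent.Helper51.UB

open Finset Equiv Helper28.VF Pool.Agent.Helper74.UB
open scoped Classical

theorem exit1 (hE : StmtEvt) (hX : StmtExit)
    (D V E F : Type) [Fintype D] [Fintype V] [Fintype E] [Fintype F] (M : PM D V E F)
    (c : ℕ) (v₀ : V) (A Q : ℕ → Finset V) (hF : Fire M c v₀ A Q)
    (T : ℕ) (X : Finset V) (hC : Col M Q T X) (R : Route M A Q X T) (s : ℕ)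
    (O : Finset V) (hs : s < T) (hO : IsComp M (Q s) O) (h1 : R.p s 0 ∈ O) :
    1 ≤ R.n s ∧ (∀ k, 1 ≤ k → k ≤ R.n s → R.p s k ∉ O) ∧
      ∃ d ∈ bd M O, M.vt d = R.p s 1 ∧ M.vt d ∉ A s ∧ tg M d ∉ A s := by
  obtain ⟨-, hn, hq, -, ha, hb⟩ := hE D V E F M c v₀ A Q hF T X hC R s s hs le_rfl hs.le
    (hO.sub h1)
  obtain ⟨i, hi1, hi2, hi3, hi4, d, hd, hdv⟩ := hX D V E F M A Q T X hC R s s O hs hs.le hO.sub
    ⟨0, Nat.zero_le _, h1⟩
  have hi : i = 1 := by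
    by_contra hne
    exact hq (i - 1) (by omega) (by omega) (hO.sub hi3)
  subst hi
  refine ⟨hn, fun k hk1 hk2 => hi4 k hk1 hk2, d, hd, hdv, ?_, ?_⟩
  · intro h
    rw [hdv] at h
    exact ha 1 hn (hF.mono s h)
  · intro h
    exact hb 1 le_rfl hn (tg M d) ⟨d, hdv, rfl⟩ (hF.mono s h)

theorem arcx (hE : StmtEvt) (hX : StmtExit) (hT : StmtTail) (hA : StmtArc) (hN : StmtNxt) :
    StmtArcX := by
  intro D V E F _ _ _ _ M c v₀ A Q hF T X hC R₁ R₂ s O hs hO h1 h2 hhf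
  obtain ⟨n1, o1, d, hd, hdv, hd1, hd2⟩ := exit1 hE hX D V E F M c v₀ A Q hF T X hC R₁ s O hs hO h1
  obtain ⟨n2, o2, e, he, hev, he1, he2⟩ := exit1 hE hX D V E F M c v₀ A Q hF T X hC R₂ s O hs hO h2
  have hR : Rch M O (M.vt d) (M.vt e) := by
    rw [hdv, hev]
    exact hT D V E F M A Q T X hC R₁ R₂ s s O hs hs.le hO.sub 1 n1 1 n2 o1 o2
  obtain ⟨a, b, hab, n, hn, hi⟩ := hA D V E F M O (A s) hO.conn hO.ne d hd e he hR hd1 hd2 he1 he2 hhf
  refine ⟨n, fun i => (nxt M O)^[i] a, hi, ?_, ?_⟩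
  · intro i hin
    have hbd := (hi i hin.le).1
    have hv : M.vt ((nxt M O)^[i] a) ∉ O := by
      unfold bd at hbd
      exact (Finset.mem_filter.1 hbd).2.2.1
    have := ((hN D V E F M O).1 _ hv).1
    simp only [Function.iterate_succ_apply']
    exact this
  · rcases hab with ⟨rfl, rfl⟩ | ⟨rfl, rfl⟩
    · left
      exact ⟨by simpa using hdv, by show M.vt ((nxt M O)^[n] _) = _; rw [hn]; exact hev⟩
    · right
      exact ⟨by simpa using hev, by show M.vt ((nxt M O)^[n] _) = _; rw [hn]; exact hdv⟩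

end Pool.Agent.Helper51.UB
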