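import Pool.Agent.Helper74.UB.Goals4

/-! # UB (MP_cd9ac2_co), packet COLX -/

namespace Pool.Agent.Helper51.UB

open Finset Equiv Helper28.VF Pool.Agent.Helper74.UB
open scoped Classical

theorem colx (hA : StmtLayAd) (hC : StmtConeAd) : StmtColX := by
  intro K h V D E F E' F' _ _ _ _ _ _ L f M dE dW dU dN I M' hHost hLM hCone w₁ w₂ x h1 h2 Q T hdis
  have A : ∀ u v, Ad M' (Sum.inl u) (Sum.inl v) ↔ L.adj u v := by
    intro u v
    rw [(hC D V E F E' F' M I M' hCone).1 u v]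
    exact (hA V D E F L M dE dW dU dN hHost.ax hLM).1 u v
  have up : ∀ r : ℤ, 0 ≤ r → r < h → L.up (f r x) (f (r + 1) x) := by
    intro r r0 r1
    obtain ⟨n, rfl⟩ := Int.eq_ofNat_of_zero_le r0
    have n1 : n < h := by exact_mod_cast r1
    by_cases he : Even n
    · exact (hHost.flat.upS n x _ (Nat.zero_le n) n1 he).2 rfl
    · exact (hHost.flat.upT n x _ (Nat.zero_le n) n1 he).2 (Or.inl rfl)
  have Aup : ∀ u v, L.up u v → Ad M' (Sum.inl u) (Sum.inl v) := fun u v huv =>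
    (A u v).2 (Or.inr (Or.inr (Or.inl huv)))
  have Adn : ∀ u v, L.up u v → Ad M' (Sum.inl v) (Sum.inl u) := fun u v huv =>
    (A v u).2 (Or.inr (Or.inr (Or.inr huv)))
  have m1 : (Sum.inl w₁ : VC V I) ∈ colX I h f w₁ w₂ x := mem_insert_self _ _
  have m2 : (Sum.inl w₂ : VC V I) ∈ colX I h f w₁ w₂ x :=
    mem_insert_of_mem (mem_insert_self _ _)
  have m3 : ∀ r : ℤ, 0 ≤ r → r ≤ h → (Sum.inl (f r x) : VC V I) ∈ colX I h f w₁ w₂ x := by
    intro r r0 r1
    refine mem_insert_of_mem (mem_insert_of_mem ?_)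
    exact mem_image.2 ⟨r, by simp [r0, r1], rfl⟩
  have cs : ∀ u ∈ colX I h f w₁ w₂ x, u = Sum.inl w₁ ∨ u = Sum.inl w₂ ∨
      ∃ r : ℤ, 0 ≤ r ∧ r ≤ h ∧ u = Sum.inl (f r x) := by
    intro u hu
    unfold colX at hu
    rw [mem_insert, mem_insert, mem_image] at hu
    rcases hu with hu | hu | ⟨r, hr, hu⟩
    · exact Or.inl hu
    · exact Or.inr (Or.inl hu)
    · rw [Finset.mem_Icc] at hr
      exact Or.inr (Or.inr ⟨r, hr.1, hr.2, hu.symm⟩)
  have p1 : ∀ n : ℕ, n ≤ h → Relation.ReflTransGen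
      (fun a b => Ad M' a b ∧ b ∈ colX I h f w₁ w₂ x) (Sum.inl (f 0 x)) (Sum.inl (f n x)) := by
    intro n
    induction n with
    | zero =>
      intro _
      exact Relation.ReflTransGen.refl
    | succ n ih =>
      intro hn
      refine Relation.ReflTransGen.tail (ih (by omega)) ⟨?_, m3 _ (by omega) (by exact_mod_cast hn)⟩
      have := up n (by omega) (by exact_mod_cast hn)
      push_cast
      exact Aup _ _ this
  have p2 : ∀ n : ℕ, n ≤ h → Relation.ReflTransGen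
      (fun a b => Ad M' a b ∧ b ∈ colX I h f w₁ w₂ x) (Sum.inl (f n x)) (Sum.inl (f 0 x)) := by
    intro n
    induction n with
    | zero =>
      intro _
      exact Relation.ReflTransGen.refl
    | succ n ih =>
      intro hn
      refine Relation.ReflTransGen.head ⟨?_, m3 n (by omega) (by omega)⟩ (ih (by omega))
      have := up n (by omega) (by exact_mod_cast hn)
      push_cast
      exact Adn _ _ this
  have to0 : ∀ u ∈ colX I h f w₁ w₂ x, Relation.ReflTransGen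
      (fun a b => Ad M' a b ∧ b ∈ colX I h f w₁ w₂ x) u (Sum.inl (f 0 x)) := by
    intro u hu
    rcases cs u hu with rfl | rfl | ⟨r, r0, r1, rfl⟩
    · exact Relation.ReflTransGen.head ⟨Adn _ _ h1, m3 h (by omega) le_rfl⟩ (p2 h le_rfl)
    · exact Relation.ReflTransGen.single ⟨Aup _ _ h2, m3 0 le_rfl (by omega)⟩
    · obtain ⟨n, rfl⟩ := Int.eq_ofNat_of_zero_le r0
      exact p2 n (by exact_mod_cast r1)
  have fr0 : ∀ u ∈ colX I h f w₁ w₂ x, Relation.ReflTransGen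
      (fun a b => Ad M' a b ∧ b ∈ colX I h f w₁ w₂ x) (Sum.inl (f 0 x)) u := by
    intro u hu
    rcases cs u hu with rfl | rfl | ⟨r, r0, r1, rfl⟩
    · exact Relation.ReflTransGen.tail (p1 h le_rfl) ⟨Aup _ _ h1, m1⟩
    · exact Relation.ReflTransGen.single ⟨Adn _ _ h2, m2⟩
    · obtain ⟨n, rfl⟩ := Int.eq_ofNat_of_zero_le r0
      exact p1 n (by exact_mod_cast r1)
  refine ⟨fun u hu v hv => (to0 u hu).trans (fr0 v hv), ?_, hdis⟩
  intro u hu
  rcases cs u hu with rfl | rfl | ⟨r, r0, r1, rfl⟩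
  · exact ⟨_, m3 h (by omega) le_rfl, Adn _ _ h1⟩
  · exact ⟨_, m3 0 le_rfl (by omega), Aup _ _ h2⟩
  · rcases lt_or_eq_of_le r1 with hr | rfl
    · exact ⟨_, m3 (r + 1) (by omega) (by omega), Aup _ _ (up r r0 hr)⟩
    · exact ⟨_, m1, Aup _ _ h1⟩

end Pool.Agent.Helper51.UB
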