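import Pool.Agent.Helper74.UB.Goals3

/-! # UB (MP_cd9ac2_co), packet HOSTREST -/

namespace Pool.Agent.Helper51.UB

open Finset Equiv Helper28.VF Pool.Agent.Helper74.UB
open scoped Classical

lemma not_dvd2 {K m : ℕ} (h : m + 1 ≤ K) : ¬ ((2 : ZMod (3 * 2 ^ K)) ^ (m + 1) ∣ 2 ^ m) := by
  rintro ⟨x, hx⟩
  have hd : 2 ^ (m + 1) ∣ 3 * 2 ^ K := Dvd.dvd.mul_left (pow_dvd_pow 2 h) 3
  have h1 := congrArg (ZMod.castHom hd (ZMod (2 ^ (m + 1)))) hx
  rw [map_mul, map_pow, map_pow] at h1
  have h2 : (ZMod.castHom hd (ZMod (2 ^ (m + 1)))) 2 = 2 := map_ofNat _ 2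
  rw [h2] at h1
  have h3 : (2 : ZMod (2 ^ (m + 1))) ^ (m + 1) = 0 := by
    have := ZMod.natCast_self (2 ^ (m + 1))
    push_cast at this
    exact this
  rw [h3, zero_mul] at h1
  have h4 : ((2 ^ m : ℕ) : ZMod (2 ^ (m + 1))) = 0 := by
    push_cast
    exact h1
  rw [ZMod.natCast_eq_zero_iff] at h4
  have h5 := Nat.le_of_dvd (by positivity) h4
  have h6 : 2 ^ (m + 1) = 2 * 2 ^ m := by ring
  have h7 : 0 < 2 ^ m := by positivity
  omega

lemma three_pow (K : ℕ) : (3 : ZMod (3 * 2 ^ K)) * 2 ^ K = 0 := by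
  have := ZMod.natCast_self (3 * 2 ^ K)
  push_cast at this
  exact this

lemma lev_hi {h : ℕ} {r : ℤ} (hr : (h : ℤ) ≤ r) : lev h (r + 1) = lev h r + 1 := by
  unfold lev; omega

lemma lev_lo {h : ℕ} {r : ℤ} (hr : r < 0) : lev h r = lev h (r + 1) + 1 := by
  unfold lev; omega

lemma card_two {α β : Type*} [DecidableEq β] {s : Finset α} (g : α → β) (a b : β)
    (hm : ∀ x ∈ s, g x = a ∨ g x = b) (hi : ∀ x ∈ s, ∀ y ∈ s, g x = g y → x = y) :
    s.card ≤ 2 := by
  have h1 : s.card ≤ ({a, b} : Finset β).card :=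
    Finset.card_le_card_of_injOn g (fun x hx => by
      have := hm x hx
      simpa using this) (fun x hx y hy h => hi x hx y hy h)
  exact h1.trans Finset.card_le_two

lemma card_three {α β : Type*} [DecidableEq β] {s : Finset α} (g : α → β) (a b c : β)
    (hm : ∀ x ∈ s, g x = a ∨ g x = b ∨ g x = c) (hi : ∀ x ∈ s, ∀ y ∈ s, g x = g y → x = y) :
    s.card ≤ 3 := by
  have h1 : s.card ≤ ({a, b, c} : Finset β).card :=
    Finset.card_le_card_of_injOn g (fun x hx => by
      have := hm x hx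
      simpa using this) (fun x hx y hy h => hi x hx y hy h)
  exact h1.trans Finset.card_le_three

lemma hv_ext {K h : ℕ} {x y : HV K h} (h1 : x.1.1 = y.1.1) (h2 : x.1.2 = y.1.2) : x = y :=
  Subtype.ext (Prod.ext h1 h2)

lemma up_cap {K h : ℕ} {p q : HV K h} (hu : hostUp K h p q) (hc : p.1.1 < 0 ∨ (h : ℤ) ≤ p.1.1) :
    q.1.1 = p.1.1 + 1 ∧
      ∃ c : ℕ, c ≤ 2 ∧ p.1.2 = q.1.2 + c * 2 ^ (min (lev h p.1.1) (lev h q.1.1)) := by
  unfold hostUp at hu
  rw [if_pos hc] at hu
  exact hu

lemma up_flat {K h : ℕ} {p q : HV K h} (hu : hostUp K h p q)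
    (hc : ¬ (p.1.1 < 0 ∨ (h : ℤ) ≤ p.1.1)) :
    q.1.1 = p.1.1 + 1 ∧ (q.1.2 = p.1.2 ∨ q.1.2 = p.1.2 + 1) := by
  unfold hostUp at hu
  rw [if_neg hc] at hu
  obtain ⟨h1, h2⟩ := hu
  split_ifs at h2
  · exact ⟨h1, Or.inl h2⟩
  · exact ⟨h1, h2⟩

lemma mk_cap {K h : ℕ} {p q : HV K h} (hc : p.1.1 < 0 ∨ (h : ℤ) ≤ p.1.1)
    (h1 : q.1.1 = p.1.1 + 1) (c : ℕ) (hc2 : c ≤ 2)
    (h2 : p.1.2 = q.1.2 + c * 2 ^ (min (lev h p.1.1) (lev h q.1.1))) : hostUp K h p q := by
  unfold hostUp
  rw [if_pos hc]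
  exact ⟨h1, c, hc2, h2⟩

theorem hostrest : StmtHostRest := by
  intro K h hK hodd
  have hh : 1 ≤ h := hodd.pos
  refine ⟨?_, ?_, ?_, ?_, ?_, ?_, ?_⟩
  · intro v hv
    have hv' : v.1.1 = (h : ℤ) + K := hv
    have hl : lev h v.1.1 = K := by rw [hv']; unfold lev; omega
    refine hv_ext rfl ?_
    show v.1.2 + 2 ^ (lev h v.1.1) + 2 ^ (lev h v.1.1) + 2 ^ (lev h v.1.1) = v.1.2
    rw [hl]
    linear_combination three_pow K
  · intro v hv
    have hv' : v.1.1 = -(K : ℤ) := hv
    have hl : lev h v.1.1 = K := by rw [hv']; unfold lev; omega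
    refine hv_ext rfl ?_
    show v.1.2 + 2 ^ (lev h v.1.1) + 2 ^ (lev h v.1.1) + 2 ^ (lev h v.1.1) = v.1.2
    rw [hl]
    linear_combination three_pow K
  · intro v k hu hr
    have hr' : v.1.1 < 0 ∨ (h : ℤ) ≤ v.1.1 := hr
    obtain ⟨h1, c, hc, h2⟩ := up_cap hu hr'
    have ev1 : ((hostE K h).symm v).1.1 = v.1.1 := rfl
    have ev2 : ((hostE K h).symm v).1.2 = v.1.2 - 2 ^ (lev h v.1.1) := rfl
    have ek1 : ((hostE K h).symm k).1.1 = k.1.1 := rfl
    have ek2 : ((hostE K h).symm k).1.2 = k.1.2 - 2 ^ (lev h k.1.1) := rfl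
    rcases hr' with hr | hr
    · have hl := lev_lo (h := h) hr
      rw [← h1] at hl
      have hm : min (lev h v.1.1) (lev h k.1.1) = lev h k.1.1 := by omega
      rw [hm] at h2
      rcases Nat.lt_or_ge c 2 with hc1 | hc1
      · right
        show hostUp K h v ((hostE K h).symm k)
        refine mk_cap (Or.inl hr) h1 (c + 1) (by omega) ?_
        rw [ek1, ek2, hm, h2]
        push_cast
        ring
      · left
        have hc' : c = 2 := by omega
        subst hc'
        show hostUp K h ((hostE K h).symm v) k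
        refine mk_cap (Or.inl hr) h1 0 (by omega) ?_
        rw [ev2, h2, hl]
        push_cast
        ring
    · have hl := lev_hi (h := h) hr
      rw [← h1] at hl
      have hm : min (lev h v.1.1) (lev h k.1.1) = lev h v.1.1 := by omega
      rw [hm] at h2
      rcases Nat.eq_zero_or_pos c with hc1 | hc1
      · right
        subst hc1
        show hostUp K h v ((hostE K h).symm k)
        refine mk_cap (Or.inr hr) h1 2 (by omega) ?_
        rw [ek1, ek2, hm, h2, hl]
        push_cast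
        ring
      · left
        show hostUp K h ((hostE K h).symm v) k
        refine mk_cap (Or.inr hr) h1 (c - 1) (by omega) ?_
        rw [ev1, hm, ev2, h2]
        push_cast [Nat.cast_sub hc1]
        ring
  · intro v hr
    have hr : (h : ℤ) ≤ v.1.1 := hr
    have key : ∀ k ∈ univ.filter (fun k => (hostL K h).up v k), k.1.1 = v.1.1 + 1 ∧
        (k.1.2 = v.1.2 ∨ k.1.2 = v.1.2 - 2 ^ (lev h v.1.1) ∨
          k.1.2 = v.1.2 - 2 * 2 ^ (lev h v.1.1)) ∧ lev h v.1.1 + 1 ≤ K ∧
        (2 : ZMod (3 * 2 ^ K)) ^ (lev h v.1.1 + 1) ∣ k.1.2 := by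
      intro k hk
      obtain ⟨h1, c, hc, h2⟩ := up_cap (Finset.mem_filter.1 hk).2 (Or.inr hr)
      have hl := lev_hi (h := h) hr
      rw [← h1] at hl
      have hm : min (lev h v.1.1) (lev h k.1.1) = lev h v.1.1 := by omega
      rw [hm] at h2
      refine ⟨h1, ?_, ?_, ?_⟩
      · interval_cases c
        · left; rw [h2]; push_cast; ring
        · right; left; rw [h2]; push_cast; ring
        · right; right; rw [h2]; push_cast; ring
      · have hk2 := k.2.2.1
        rw [h1] at hk2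
        unfold lev
        omega
      · have := k.2.2.2
        rwa [hl] at this
    have inj : ∀ x ∈ univ.filter (fun k => (hostL K h).up v k),
        ∀ y ∈ univ.filter (fun k => (hostL K h).up v k), x.1.2 = y.1.2 → x = y := fun x hx y hy e =>
      hv_ext ((key x hx).1.trans (key y hy).1.symm) e
    by_cases hc : ∃ k ∈ univ.filter (fun k => (hostL K h).up v k), k.1.2 = v.1.2
    · obtain ⟨k0, hk0, e0⟩ := hc
      refine card_two (fun k : HV K h => k.1.2) v.1.2 (v.1.2 - 2 * 2 ^ (lev h v.1.1)) ?_ inj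
      intro x hx
      rcases (key x hx).2.1 with e | e | e
      · exact Or.inl e
      · exfalso
        have d1 := (key x hx).2.2.2
        have d2 := (key k0 hk0).2.2.2
        rw [e] at d1
        rw [e0] at d2
        have d3 := dvd_sub d2 d1
        rw [sub_sub_cancel] at d3
        exact not_dvd2 (key x hx).2.2.1 d3
      · exact Or.inr e
    · refine card_two (fun k : HV K h => k.1.2) (v.1.2 - 2 ^ (lev h v.1.1))
        (v.1.2 - 2 * 2 ^ (lev h v.1.1)) ?_ inj
      intro x hx
      rcases (key x hx).2.1 with e | e | e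
      · exact absurd ⟨x, hx, e⟩ hc
      · exact Or.inl e
      · exact Or.inr e
  · intro v
    by_cases hr : v.1.1 < 0 ∨ (h : ℤ) ≤ v.1.1
    · set m := min (lev h v.1.1) (lev h (v.1.1 + 1)) with hm
      have key : ∀ k ∈ univ.filter (fun k => (hostL K h).up v k), k.1.1 = v.1.1 + 1 ∧
          (k.1.2 = v.1.2 ∨ k.1.2 = v.1.2 - 2 ^ m ∨ k.1.2 = v.1.2 - 2 * 2 ^ m) := by
        intro k hk
        obtain ⟨h1, c, hc, h2⟩ := up_cap (Finset.mem_filter.1 hk).2 hr
        rw [h1, ← hm] at h2
        refine ⟨h1, ?_⟩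
        interval_cases c
        · left; rw [h2]; push_cast; ring
        · right; left; rw [h2]; push_cast; ring
        · right; right; rw [h2]; push_cast; ring
      exact card_three (fun k : HV K h => k.1.2) _ _ _ (fun x hx => (key x hx).2)
        (fun x hx y hy e => hv_ext ((key x hx).1.trans (key y hy).1.symm) e)
    · have key : ∀ k ∈ univ.filter (fun k => (hostL K h).up v k), k.1.1 = v.1.1 + 1 ∧
          (k.1.2 = v.1.2 ∨ k.1.2 = v.1.2 + 1) := fun k hk =>
        up_flat (Finset.mem_filter.1 hk).2 hr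
      exact (card_two (fun k : HV K h => k.1.2) _ _ (fun x hx => (key x hx).2)
        (fun x hx y hy e => hv_ext ((key x hx).1.trans (key y hy).1.symm) e)).trans (by norm_num)
  · intro v hr
    have hr : v.1.1 ≤ 0 := hr
    have key : ∀ u ∈ univ.filter (fun u => (hostL K h).up u v), u.1.1 = v.1.1 - 1 ∧
        (u.1.2 = v.1.2 ∨ u.1.2 = v.1.2 + 2 ^ (lev h v.1.1) ∨
          u.1.2 = v.1.2 + 2 * 2 ^ (lev h v.1.1)) ∧ lev h v.1.1 + 1 ≤ K ∧
        (2 : ZMod (3 * 2 ^ K)) ^ (lev h v.1.1 + 1) ∣ u.1.2 := by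
      intro u hu
      have hu := (Finset.mem_filter.1 hu).2
      have h0 : v.1.1 = u.1.1 + 1 := hu.1
      have hr1 : u.1.1 < 0 := by omega
      obtain ⟨h1, c, hc, h2⟩ := up_cap hu (Or.inl hr1)
      have hl := lev_lo (h := h) hr1
      rw [← h1] at hl
      have hm : min (lev h u.1.1) (lev h v.1.1) = lev h v.1.1 := by omega
      rw [hm] at h2
      refine ⟨by omega, ?_, ?_, ?_⟩
      · interval_cases c
        · left; rw [h2]; push_cast; ring
        · right; left; rw [h2]; push_cast; ring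
        · right; right; rw [h2]; push_cast; ring
      · have hk2 := u.2.1
        rw [h1]
        unfold lev
        omega
      · have := u.2.2.2
        rwa [hl] at this
    have inj : ∀ x ∈ univ.filter (fun u => (hostL K h).up u v),
        ∀ y ∈ univ.filter (fun u => (hostL K h).up u v), x.1.2 = y.1.2 → x = y := fun x hx y hy e =>
      hv_ext ((key x hx).1.trans (key y hy).1.symm) e
    by_cases hc : ∃ k ∈ univ.filter (fun u => (hostL K h).up u v), k.1.2 = v.1.2
    · obtain ⟨k0, hk0, e0⟩ := hc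
      refine card_two (fun k : HV K h => k.1.2) v.1.2 (v.1.2 + 2 * 2 ^ (lev h v.1.1)) ?_ inj
      intro x hx
      rcases (key x hx).2.1 with e | e | e
      · exact Or.inl e
      · exfalso
        have d1 := (key x hx).2.2.2
        have d2 := (key k0 hk0).2.2.2
        rw [e] at d1
        rw [e0] at d2
        have d3 := dvd_sub d1 d2
        rw [add_sub_cancel_left] at d3
        exact not_dvd2 (key x hx).2.2.1 d3
      · exact Or.inr e
    · refine card_two (fun k : HV K h => k.1.2) (v.1.2 + 2 ^ (lev h v.1.1))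
        (v.1.2 + 2 * 2 ^ (lev h v.1.1)) ?_ inj
      intro x hx
      rcases (key x hx).2.1 with e | e | e
      · exact absurd ⟨x, hx, e⟩ hc
      · exact Or.inl e
      · exact Or.inr e
  · intro v
    by_cases hr : v.1.1 - 1 < 0 ∨ (h : ℤ) ≤ v.1.1 - 1
    · set m := min (lev h (v.1.1 - 1)) (lev h v.1.1) with hm
      have key : ∀ u ∈ univ.filter (fun u => (hostL K h).up u v), u.1.1 = v.1.1 - 1 ∧
          (u.1.2 = v.1.2 ∨ u.1.2 = v.1.2 + 2 ^ m ∨ u.1.2 = v.1.2 + 2 * 2 ^ m) := by
        intro u hu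
        have hu := (Finset.mem_filter.1 hu).2
        have h0 : v.1.1 = u.1.1 + 1 := hu.1
        have h0' : u.1.1 = v.1.1 - 1 := by omega
        rw [← h0'] at hr
        obtain ⟨h1, c, hc, h2⟩ := up_cap hu hr
        rw [h0', ← hm] at h2
        refine ⟨h0', ?_⟩
        interval_cases c
        · left; rw [h2]; push_cast; ring
        · right; left; rw [h2]; push_cast; ring
        · right; right; rw [h2]; push_cast; ring
      exact card_three (fun k : HV K h => k.1.2) _ _ _ (fun x hx => (key x hx).2)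
        (fun x hx y hy e => hv_ext ((key x hx).1.trans (key y hy).1.symm) e)
    · have key : ∀ u ∈ univ.filter (fun u => (hostL K h).up u v), u.1.1 = v.1.1 - 1 ∧
          (u.1.2 = v.1.2 ∨ u.1.2 = v.1.2 - 1) := by
        intro u hu
        have hu := (Finset.mem_filter.1 hu).2
        have h0 : v.1.1 = u.1.1 + 1 := hu.1
        have h0' : u.1.1 = v.1.1 - 1 := by omega
        rw [← h0'] at hr
        obtain ⟨-, h2⟩ := up_flat hu hr
        refine ⟨h0', ?_⟩
        rcases h2 with e | e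
        · exact Or.inl e.symm
        · right
          rw [e]
          ring
      exact (card_two (fun k : HV K h => k.1.2) _ _ (fun x hx => (key x hx).2)
        (fun x hx y hy e => hv_ext ((key x hx).1.trans (key y hy).1.symm) e)).trans (by norm_num)

end Pool.Agent.Helper51.UB
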